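import Pool.Agent.Lib.MP_426b05_co.Base

/-!
# MP_426b05_co, module LOSS (helper29): LossStatement and FmStatement
-/

set_option autoImplicit false

namespace Pool.Agent.Lib.MP_426b05_co.H29

open Finset Filter

theorem card_RS_le (r n : ℕ) : Fintype.card (RS r n) ≤ n ^ r := by
  have h1 : Fintype.card (RS r n) = Nat.choose n r := by
    show Fintype.card {U : Finset (Fin n) // U.card = r} = _
    rw [Fintype.card_finset_len, Fintype.card_fin]
  rw [h1]
  exact Nat.choose_le_pow n r

section
variable {V : Type} [Fintype V] [DecidableEq V] {r n t : ℕ}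
  {A : Om r n t → Fin t → Finset (Fin n)} {χ : Fin n → V} {e R : ℕ → Finset V}

theorem step1 (hRes : ResStatement) (hA : Causal A) (hN : 0 < Fintype.card (RS r n)) (j : ℕ) :
    (∑ ω : Om r n t, (cnt A χ e R (j + 1) ω : ℝ)) ≤
      ((t : ℝ) / Fintype.card (RS r n)) * ∑ ω : Om r n t, (ysum A χ e R j ω : ℝ) := by
  have hNR : (0 : ℝ) < Fintype.card (RS r n) := by exact_mod_cast hN
  have h1 := hRes V r n t A hA χ e R j
  have h2 : (∑ ω : Om r n t, (cnt A χ e R (j + 1) ω : ℝ)) * Fintype.card (RS r n) ≤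
      t * ∑ ω : Om r n t, (ysum A χ e R j ω : ℝ) := by exact_mod_cast h1
  rw [div_mul_eq_mul_div, le_div_iff₀ hNR]
  exact h2

theorem step2 (hYx : YxStatement) (j : ℕ) :
    (∑ ω : Om r n t, (ysum A χ e R j ω : ℝ)) ≤ ∑ ω : Om r n t, (cnt A χ e R j ω : ℝ) := by
  refine sum_le_sum fun ω _ => ?_
  exact_mod_cast hYx V r n t A χ e R j ω

theorem step3 (hRes : ResStatement) (hYx : YxStatement) (hA : Causal A)
    (hN : 0 < Fintype.card (RS r n)) (a b : ℕ) :
    (∑ ω : Om r n t, (cnt A χ e R (a + b) ω : ℝ)) ≤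
      ((t : ℝ) / Fintype.card (RS r n)) ^ b * ∑ ω : Om r n t, (cnt A χ e R a ω : ℝ) := by
  induction b with
  | zero => simp
  | succ b ih =>
    have h1 := step1 (χ := χ) (e := e) (R := R) hRes hA hN (a + b)
    have h2 := step2 (A := A) (χ := χ) (e := e) (R := R) hYx (a + b)
    have h3 : (0 : ℝ) ≤ (t : ℝ) / Fintype.card (RS r n) := by positivity
    calc (∑ ω : Om r n t, (cnt A χ e R (a + (b + 1)) ω : ℝ))
        ≤ ((t : ℝ) / Fintype.card (RS r n)) * ∑ ω : Om r n t, (ysum A χ e R (a + b) ω : ℝ) := h1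
      _ ≤ ((t : ℝ) / Fintype.card (RS r n)) * ∑ ω : Om r n t, (cnt A χ e R (a + b) ω : ℝ) :=
          mul_le_mul_of_nonneg_left h2 h3
      _ ≤ ((t : ℝ) / Fintype.card (RS r n)) * (((t : ℝ) / Fintype.card (RS r n)) ^ b *
            ∑ ω : Om r n t, (cnt A χ e R a ω : ℝ)) := mul_le_mul_of_nonneg_left ih h3
      _ = _ := by rw [pow_succ]; ring

end

/-- FM -/
theorem fm (hRes : ResStatement) (hYx : YxStatement) (hB1 : Base1Statement) : FmStatement := by
  intro V _ _ r s n t E hrs hE A hA hN χ e R hpat hne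
  have hm : 1 ≤ E.card := hne.card_pos
  have hNR : (0 : ℝ) < Fintype.card (RS r n) := by exact_mod_cast hN
  set N : ℕ := Fintype.card (RS r n) with hNdef
  obtain ⟨m', hm'⟩ : ∃ m', E.card = 1 + m' := ⟨E.card - 1, by omega⟩
  have h1 := step3 (χ := χ) (e := e) (R := R) hRes hYx hA hN 1 m'
  rw [← hm'] at h1
  have he0 : (e 0).card = s := hE _ (hpat.mem 0 (by omega))
  have hsv : s ≤ Fintype.card V := by
    rw [← he0]
    exact card_le_univ _
  have h2 : (∑ ω : Om r n t, (cnt A χ e R 1 ω : ℝ)) ≤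
      (N : ℝ) ^ t * (t * (n : ℝ) ^ (Fintype.card V - s)) := by
    have h3 : ∀ ω ∈ (univ : Finset (Om r n t)), (cnt A χ e R 1 ω : ℝ) ≤
        t * (n : ℝ) ^ (Fintype.card V - s) := by
      intro ω _
      have h4 := hB1 V r n t A χ e R ω (hpat.sub 0 (by omega))
      rw [he0] at h4
      exact_mod_cast h4
    refine (sum_le_sum h3).trans ?_
    rw [sum_const, nsmul_eq_mul, card_univ, Fintype.card_fun, Fintype.card_fin]
    push_cast
    exact le_of_eq rfl
  have h3 : (N : ℝ) ≤ (n : ℝ) ^ r := by exact_mod_cast card_RS_le r n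
  have h4 : (t : ℝ) * (n : ℝ) ^ (Fintype.card V - s) ≤
      ((t : ℝ) / N) * (n : ℝ) ^ (Fintype.card V - (s - r)) := by
    have h5 : Fintype.card V - (s - r) = (Fintype.card V - s) + r := by omega
    rw [h5, pow_add, div_mul_eq_mul_div, le_div_iff₀ hNR]
    calc (t : ℝ) * (n : ℝ) ^ (Fintype.card V - s) * N ≤
        (t : ℝ) * (n : ℝ) ^ (Fintype.card V - s) * (n : ℝ) ^ r :=
          mul_le_mul_of_nonneg_left h3 (by positivity)
      _ = _ := by ring
  rw [div_le_iff₀ (by positivity)]
  calc (∑ ω : Om r n t, (cnt A χ e R E.card ω : ℝ))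
      ≤ ((t : ℝ) / N) ^ m' * ∑ ω : Om r n t, (cnt A χ e R 1 ω : ℝ) := h1
    _ ≤ ((t : ℝ) / N) ^ m' * ((N : ℝ) ^ t * (((t : ℝ) / N) *
          (n : ℝ) ^ (Fintype.card V - (s - r)))) := by
        refine mul_le_mul_of_nonneg_left (h2.trans ?_) (by positivity)
        exact mul_le_mul_of_nonneg_left h4 (by positivity)
    _ = (n : ℝ) ^ (Fintype.card V - (s - r)) * ((t : ℝ) / N) ^ E.card * (N : ℝ) ^ t := by
        rw [hm', pow_add, pow_one]
        ring

/-- LOSS -/
theorem loss (hRes : ResStatement) (hYx : YxStatement) (hCs : CsStatement)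
    (hProj : ProjStatement) (hPair : PairStatement) : LossStatement := by
  classical
  intro V _ _ r s n t E hr hrs hE A hA hN htN χ e R hpat i hi1 hiE W' hW' hW'2
  have hNR : (0 : ℝ) < Fintype.card (RS r n) := by exact_mod_cast hN
  set N : ℕ := Fintype.card (RS r n) with hNdef
  set q : ℝ := (t : ℝ) / N with hq
  have hq0 : 0 ≤ q := by positivity
  have hq1 : q ≤ 1 := by
    rw [hq, div_le_one hNR]
    exact_mod_cast htN
  set M : ℝ := (N : ℝ) ^ t with hM
  have hM0 : 0 < M := by positivity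
  have hn0 : 0 < n := by
    rcases Nat.eq_zero_or_pos n with h | h
    · exfalso
      subst h
      have h1 := card_RS_le r 0
      rw [← hNdef, zero_pow (by omega)] at h1
      omega
    · exact h
  have hnR : (1 : ℝ) ≤ n := by exact_mod_cast hn0
  have hcard : ∀ j < E.card, (e j).card = s ∧ (e j \ R j).card = s - r := by
    intro j hj
    have h1 := hE _ (hpat.mem j hj)
    refine ⟨h1, ?_⟩
    rw [card_sdiff_of_subset (hpat.sub j hj), h1, hpat.card j hj]
  -- E X_m ≤ q ^ (m - i) E Y_i
  set T : ℝ := ∑ ω : Om r n t, (ysum A χ e R i ω : ℝ) with hT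
  have hT0 : 0 ≤ T := sum_nonneg fun ω _ => Nat.cast_nonneg _
  have h1 : (∑ ω : Om r n t, (cnt A χ e R E.card ω : ℝ)) ≤ q ^ (E.card - i) * T := by
    obtain ⟨m', hm'⟩ : ∃ m', E.card = (i + 1) + m' := ⟨E.card - (i + 1), by omega⟩
    have h2 := step3 (χ := χ) (e := e) (R := R) hRes hYx hA hN (i + 1) m'
    rw [← hm'] at h2
    have h3 := step1 (χ := χ) (e := e) (R := R) hRes hA hN i
    refine h2.trans ((mul_le_mul_of_nonneg_left h3 (by positivity)).trans (le_of_eq ?_))
    have h4 : E.card - i = m' + 1 := by omega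
    rw [h4, pow_succ]
    ring
  -- Cauchy-Schwarz
  have h2 : T ^ 2 ≤ (∑ ω : Om r n t, (projCnt A χ e R i ω : ℝ)) *
      ∑ ω : Om r n t, (pairCnt A χ e R i (e i) ω : ℝ) := by
    have h3 := hCs V r n t A χ e R i (hpat.sub i hiE)
    rw [hT]
    exact_mod_cast h3
  -- projections
  have h3 : (∑ ω : Om r n t, (projCnt A χ e R i ω : ℝ)) ≤
      M * ((n : ℝ) ^ (W'.card - (s - r)) * q ^ (idx e i W').card) := by
    rcases (idx e i W').eq_empty_or_nonempty with hem | hne
    · have hs : s ≤ W'.card := by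
        rcases hW'2 with h | h
        · rw [hem] at h
          exact absurd h (by simp)
        · exact h
      rw [hem, card_empty, pow_zero, mul_one]
      have h4 : ∀ ω ∈ (univ : Finset (Om r n t)), (projCnt A χ e R i ω : ℝ) ≤
          (n : ℝ) ^ (W'.card - (s - r)) := by
        intro ω _
        have h5 : projCnt A χ e R i ω ≤ N := by
          rw [projCnt]
          exact card_le_univ _
        have h6 : (projCnt A χ e R i ω : ℝ) ≤ (n : ℝ) ^ r := by
          exact_mod_cast h5.trans (card_RS_le r n)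
        refine h6.trans (pow_le_pow_right₀ hnR ?_)
        omega
      refine (sum_le_sum h4).trans ?_
      rw [sum_const, nsmul_eq_mul, card_univ, Fintype.card_fun, Fintype.card_fin]
      push_cast
      exact le_of_eq rfl
    · have h4 := hProj V r n t (s - r) A hA χ e R i W' (subset_union_left.trans hW') hne
        fun j hj => ⟨hpat.sub j (by omega), (hcard j (by omega)).2⟩
      have h5 : (∑ ω : Om r n t, (projCnt A χ e R i ω : ℝ)) * (N : ℝ) ^ (idx e i W').card ≤
          M * (n : ℝ) ^ (W'.card - (s - r)) * (t : ℝ) ^ (idx e i W').card := by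
        rw [hM]
        exact_mod_cast h4
      rw [hq, div_pow, ← mul_div_assoc, ← mul_div_assoc, le_div_iff₀ (by positivity)]
      refine h5.trans (le_of_eq (by ring))
  -- pairs
  have h4 : (∑ ω : Om r n t, (pairCnt A χ e R i (e i) ω : ℝ)) ≤
      M * (2 ^ i * ∑ W ∈ univ.filter (fun W : Finset V => e i ⊆ W),
        (n : ℝ) ^ ((Fintype.card V - (s - r)) + (Fintype.card V - (W ∪ (e 0 \ R 0)).card)) *
          q ^ (2 * i - (idx e i W).card)) := by
    have h5 := hPair V r n t (s - r) A hA χ e R i hi1 (fun j hj => hpat.sub j (by omega))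
      (hcard 0 (by omega)).2 (fun j hj j' hj' => hpat.inj j (by omega) j' (by omega)) (e i)
    have h6 : (∑ ω : Om r n t, (pairCnt A χ e R i (e i) ω : ℝ)) * (N : ℝ) ^ (2 * i) ≤
        M * ∑ W ∈ univ.filter (fun W : Finset V => e i ⊆ W), ∑ J ∈ (idx e i W).powerset,
            (n : ℝ) ^ ((Fintype.card V - (s - r)) +
              (Fintype.card V - (W ∪ (e 0 \ R 0)).card)) *
              ((t : ℝ) ^ (2 * i - J.card) * (N : ℝ) ^ J.card) := by
      rw [hM]
      exact_mod_cast h5
    have h7 : ∀ W : Finset V, (idx e i W).card ≤ i := by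
      intro W
      refine (card_filter_le _ _).trans ?_
      rw [card_range]
    have h8 : ∀ W ∈ univ.filter (fun W : Finset V => e i ⊆ W),
        ∑ J ∈ (idx e i W).powerset,
            (n : ℝ) ^ ((Fintype.card V - (s - r)) +
              (Fintype.card V - (W ∪ (e 0 \ R 0)).card)) *
              ((t : ℝ) ^ (2 * i - J.card) * (N : ℝ) ^ J.card) ≤
          (2 ^ i * ((n : ℝ) ^ ((Fintype.card V - (s - r)) +
            (Fintype.card V - (W ∪ (e 0 \ R 0)).card)) *
            q ^ (2 * i - (idx e i W).card))) * (N : ℝ) ^ (2 * i) := by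
      intro W _
      have h9 : ∀ J ∈ (idx e i W).powerset,
          (n : ℝ) ^ ((Fintype.card V - (s - r)) +
              (Fintype.card V - (W ∪ (e 0 \ R 0)).card)) *
              ((t : ℝ) ^ (2 * i - J.card) * (N : ℝ) ^ J.card) ≤
          (n : ℝ) ^ ((Fintype.card V - (s - r)) +
            (Fintype.card V - (W ∪ (e 0 \ R 0)).card)) *
            q ^ (2 * i - (idx e i W).card) * (N : ℝ) ^ (2 * i) := by
        intro J hJ
        have hJc : J.card ≤ (idx e i W).card := card_le_card (mem_powerset.1 hJ)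
        have h10 : (t : ℝ) ^ (2 * i - J.card) * (N : ℝ) ^ J.card =
            q ^ (2 * i - J.card) * (N : ℝ) ^ (2 * i) := by
          have h11 : (N : ℝ) ^ (2 * i) = (N : ℝ) ^ (2 * i - J.card) * (N : ℝ) ^ J.card := by
            rw [← pow_add]
            congr 1
            have := h7 W
            omega
          rw [h11, hq, div_pow]
          field_simp
        rw [h10]
        have h12 : q ^ (2 * i - J.card) ≤ q ^ (2 * i - (idx e i W).card) :=
          pow_le_pow_of_le_one hq0 hq1 (by omega)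
        calc _ ≤ (n : ℝ) ^ ((Fintype.card V - (s - r)) +
              (Fintype.card V - (W ∪ (e 0 \ R 0)).card)) *
              (q ^ (2 * i - (idx e i W).card) * (N : ℝ) ^ (2 * i)) := by
              refine mul_le_mul_of_nonneg_left ?_ (by positivity)
              exact mul_le_mul_of_nonneg_right h12 (by positivity)
          _ = _ := by ring
      refine (sum_le_sum h9).trans ?_
      rw [sum_const, nsmul_eq_mul, card_powerset]
      have h13 : (2 : ℝ) ^ (idx e i W).card ≤ 2 ^ i := pow_le_pow_right₀ (by norm_num) (h7 W)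
      push_cast
      calc _ ≤ (2 : ℝ) ^ i * ((n : ℝ) ^ ((Fintype.card V - (s - r)) +
            (Fintype.card V - (W ∪ (e 0 \ R 0)).card)) *
            q ^ (2 * i - (idx e i W).card) * (N : ℝ) ^ (2 * i)) :=
            mul_le_mul_of_nonneg_right h13 (by positivity)
        _ = _ := by ring
    have h9 := h6.trans (mul_le_mul_of_nonneg_left (sum_le_sum h8) hM0.le)
    rw [← sum_mul, ← mul_sum, ← mul_assoc] at h9
    exact le_of_mul_le_mul_right h9 (by positivity)
  -- assembly
  rw [div_pow, div_le_iff₀ (by positivity)]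
  have hX0 : 0 ≤ ∑ ω : Om r n t, (cnt A χ e R E.card ω : ℝ) :=
    sum_nonneg fun ω _ => Nat.cast_nonneg _
  have hP0 : 0 ≤ ∑ ω : Om r n t, (pairCnt A χ e R i (e i) ω : ℝ) :=
    sum_nonneg fun ω _ => Nat.cast_nonneg _
  calc (∑ ω : Om r n t, (cnt A χ e R E.card ω : ℝ)) ^ 2
      ≤ (q ^ (E.card - i) * T) ^ 2 := pow_le_pow_left₀ hX0 h1 2
    _ = q ^ (2 * (E.card - i)) * T ^ 2 := by
        rw [mul_pow, ← pow_mul, mul_comm (E.card - i) 2]
    _ ≤ q ^ (2 * (E.card - i)) * ((M * ((n : ℝ) ^ (W'.card - (s - r)) *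
          q ^ (idx e i W').card)) * (M * (2 ^ i *
          ∑ W ∈ univ.filter (fun W : Finset V => e i ⊆ W),
        (n : ℝ) ^ ((Fintype.card V - (s - r)) + (Fintype.card V - (W ∪ (e 0 \ R 0)).card)) *
          q ^ (2 * i - (idx e i W).card)))) := by
        refine mul_le_mul_of_nonneg_left (h2.trans ?_) (by positivity)
        exact mul_le_mul h3 h4 hP0 (by positivity)
    _ = _ := by
        have h5 : ∀ W : Finset V,
            (n : ℝ) ^ ((W'.card - (s - r)) + (Fintype.card V - (s - r)) +
              (Fintype.card V - (W ∪ (e 0 \ R 0)).card)) *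
            q ^ (2 * (E.card - i) + (idx e i W').card + (2 * i - (idx e i W).card)) =
            (q ^ (2 * (E.card - i)) * ((n : ℝ) ^ (W'.card - (s - r)) *
              q ^ (idx e i W').card)) * ((n : ℝ) ^ ((Fintype.card V - (s - r)) +
                (Fintype.card V - (W ∪ (e 0 \ R 0)).card)) *
                q ^ (2 * i - (idx e i W).card)) := by
          intro W
          rw [add_assoc, pow_add (n : ℝ) (W'.card - (s - r)), pow_add q
            (2 * (E.card - i) + (idx e i W').card), pow_add q (2 * (E.card - i))]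
          ring
        simp_rw [h5]
        rw [← mul_sum]
        ring

end Pool.Agent.Lib.MP_426b05_co.H29
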