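import Pool.Agent.Lib.MP_426b05_co.Base

/-!
# MP_426b05_co, module S3 (helper29): the first moment of the number of complete copies
-/

set_option autoImplicit false

namespace Pool.Agent.Lib.MP_426b05_co.H29

open Finset Filter

theorem natcard_sub {Ω : Type} [Fintype Ω] (p : Ω → Prop) [DecidablePred p] :
    Nat.card {x // p x} = (univ.filter p).card := by
  rw [Nat.card_eq_fintype_card, Fintype.card_subtype]

/-- the number of competitors which differ from `φ` exactly on `D` -/
theorem card_comp {V : Type} [Fintype V] [DecidableEq V] {n : ℕ} (B : V → Finset (Fin n))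
    (φ : V → Fin n) (hφ : ∀ a, φ a ∈ B a) (D : Finset V) (s : Finset (V → Fin n))
    (hs : ∀ ψ ∈ s, (∀ a, ψ a ∈ B a) ∧ ∀ a, a ∈ D ↔ ψ a ≠ φ a) :
    (s.card : ℝ) ≤ ∏ a ∈ D, (((B a).card - 1 : ℕ) : ℝ) := by
  have h1 : s ⊆ Fintype.piFinset fun a => if a ∈ D then (B a).erase (φ a) else {φ a} := by
    intro ψ hψ
    rw [Fintype.mem_piFinset]
    intro a
    obtain ⟨h2, h3⟩ := hs ψ hψ
    by_cases ha : a ∈ D
    · rw [if_pos ha, mem_erase]
      exact ⟨(h3 a).1 ha, h2 a⟩
    · rw [if_neg ha, mem_singleton]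
      by_contra hcon
      exact ha ((h3 a).2 hcon)
  have h4 := card_le_card h1
  rw [Fintype.card_piFinset] at h4
  have h5 : ∏ a, (if a ∈ D then (B a).erase (φ a) else {φ a}).card =
      ∏ a ∈ D, ((B a).card - 1) := by
    rw [← prod_filter_mul_prod_filter_not univ (fun a => a ∈ D)]
    have h6 : ∏ a ∈ univ.filter (fun a => ¬ a ∈ D),
        (if a ∈ D then (B a).erase (φ a) else {φ a}).card = 1 := by
      refine prod_eq_one fun a ha => ?_
      rw [if_neg (mem_filter.1 ha).2, card_singleton]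
    have h7 : univ.filter (fun a => a ∈ D) = D := by
      ext a
      simp
    rw [h6, mul_one, h7]
    refine prod_congr rfl fun a ha => ?_
    rw [if_pos ha, card_erase_of_mem (hφ a)]
  rw [h5] at h4
  calc (s.card : ℝ) ≤ ((∏ a ∈ D, ((B a).card - 1) : ℕ) : ℝ) := by exact_mod_cast h4
    _ = ∏ a ∈ D, (((B a).card - 1 : ℕ) : ℝ) := by push_cast; rfl

/-- S3 -/
theorem s3 (h1 : S1Statement) (h2a : S2aStatement) (h2b : S2bStatement) : S3Statement := by
  classical
  intro V _ _ r n m L B e R W F hB hR hCh hN hL hH1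
  set N : ℕ := Fintype.card (RS r n) with hNdef
  have hNR : (0 : ℝ) < N := by exact_mod_cast hN
  set q : ℝ := (L : ℝ) / N with hq
  have hq0 : 0 ≤ q := by positivity
  set M : ℝ := (N : ℝ) ^ (L * m) with hM
  have hM0 : 0 < M := by positivity
  -- injectivity on the classes
  have hinj : ∀ φ : V → Fin n, (∀ a, φ a ∈ B a) → Function.Injective φ := by
    intro φ hφ a b hab
    by_contra hne
    exact (disjoint_left.1 (hB a b hne) (hφ a)) (hab ▸ hφ b)
  -- the number of rounds in which all the sets `φ (R j)` are offered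
  have hOff : ∀ φ : V → Fin n, (∀ a, φ a ∈ B a) →
      M * (q / 2) ^ m ≤ ((univ.filter fun ρ : Fin m → Fin L → RS r n =>
        ∀ j < m, ∃ U ∈ hits ρ j, U.1 = (R j).image φ).card : ℝ) := by
    intro φ hφ
    have h3 := h2b V r n m L R φ hL fun j hj => by
      rw [card_image_of_injective _ (hinj φ hφ)]
      exact (hR j hj).2.2
    rw [natcard_sub, ← hNdef] at h3
    have h4 : M * (L : ℝ) ^ m ≤ ((univ.filter fun ρ : Fin m → Fin L → RS r n =>
        ∀ j < m, ∃ U ∈ hits ρ j, U.1 = (R j).image φ).card : ℝ) * (2 * N) ^ m := by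
      rw [hM]
      exact_mod_cast h3
    have h5 : (q / 2) ^ m = (L : ℝ) ^ m / (2 * N) ^ m := by
      rw [hq, div_div, ← div_pow, mul_comm (N : ℝ) 2]
    rw [h5, ← mul_div_assoc, div_le_iff₀ (by positivity)]
    exact h4
  -- the number of rounds with a given competitor
  have hOff2 : ∀ (φ ψ : V → Fin n) (S : Finset ℕ), S ⊆ range m →
      (∀ l ∈ S, (R l).image φ ≠ (R l).image ψ) →
      ((univ.filter fun ρ : Fin m → Fin L → RS r n =>
        (∀ j < m, ∃ U ∈ hits ρ j, U.1 = (R j).image φ) ∧
        ∀ l ∈ S, ∃ U ∈ hits ρ l, U.1 = (R l).image ψ).card : ℝ) ≤ M * q ^ (m + S.card) := by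
    intro φ ψ S hS hne
    have h3 := h2a V r n m L R φ ψ S hS hne
    rw [natcard_sub, ← hNdef] at h3
    have h4 : ((univ.filter fun ρ : Fin m → Fin L → RS r n =>
        (∀ j < m, ∃ U ∈ hits ρ j, U.1 = (R j).image φ) ∧
        ∀ l ∈ S, ∃ U ∈ hits ρ l, U.1 = (R l).image ψ).card : ℝ) * (N : ℝ) ^ (m + S.card) ≤
          M * (L : ℝ) ^ (m + S.card) := by
      rw [hM]
      exact_mod_cast h3
    rw [hq, div_pow, ← mul_div_assoc, le_div_iff₀ (by positivity)]
    exact h4
  -- the sets `D`
  let DD : ℕ → Finset (Finset V) := fun j => univ.filter fun D : Finset V =>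
    D ⊆ W j \ R j ∧ D.Nonempty ∧ ∀ l ∈ touch e j (W j) D, ¬ Disjoint (R l) D
  -- one copy
  have hone : ∀ φ : V → Fin n, (∀ a, φ a ∈ B a) →
      M * q ^ m ≤ 2 ^ (m + 1) * ((univ.filter fun ρ : Fin m → Fin L → RS r n =>
        ∀ j < m, Pres (F ρ) (hits ρ) e R j φ).card : ℝ) := by
    intro φ hφ
    let Psi : Finset V → Finset (V → Fin n) := fun D => univ.filter fun ψ : V → Fin n =>
      (∀ a, ψ a ∈ B a) ∧ ∀ a, a ∈ D ↔ ψ a ≠ φ a
    let O2 : ℕ → Finset V → (V → Fin n) → Finset (Fin m → Fin L → RS r n) := fun j D ψ =>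
      univ.filter fun ρ : Fin m → Fin L → RS r n =>
        (∀ j < m, ∃ U ∈ hits ρ j, U.1 = (R j).image φ) ∧
        ∀ l ∈ touch e j (W j) D, ∃ U ∈ hits ρ l, U.1 = (R l).image ψ
    have hcov : (univ.filter fun ρ : Fin m → Fin L → RS r n =>
        ∀ j < m, ∃ U ∈ hits ρ j, U.1 = (R j).image φ) ⊆
        (univ.filter fun ρ : Fin m → Fin L → RS r n =>
          ∀ j < m, Pres (F ρ) (hits ρ) e R j φ) ∪
        (range m).biUnion fun j => (DD j).biUnion fun D => (Psi D).biUnion fun ψ => O2 j D ψ := by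
      intro ρ hρ
      have hρ' := (mem_filter.1 hρ).2
      rcases h1 V r n m B (F ρ) (hits ρ) e R W hB (fun j hj => ⟨(hR j hj).1, (hR j hj).2.1⟩)
        (hCh ρ) φ hφ hρ' with h3 | ⟨j, hj, D, hD, hDne, htouch, ψ, hψ, hψD, hψt⟩
      · exact mem_union_left _ (mem_filter.2 ⟨mem_univ _, h3⟩)
      · refine mem_union_right _ (mem_biUnion.2 ⟨j, mem_range.2 hj, mem_biUnion.2 ⟨D, ?_,
          mem_biUnion.2 ⟨ψ, ?_, ?_⟩⟩⟩)
        · exact mem_filter.2 ⟨mem_univ _, hD, hDne, htouch⟩
        · exact mem_filter.2 ⟨mem_univ _, hψ, hψD⟩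
        · exact mem_filter.2 ⟨mem_univ _, hρ', hψt⟩
    have hcard := (card_le_card hcov).trans (card_union_le _ _)
    have hb : (((range m).biUnion fun j => (DD j).biUnion fun D =>
        (Psi D).biUnion fun ψ => O2 j D ψ).card : ℝ) ≤
        ∑ j ∈ range m, ∑ D ∈ DD j, (∏ a ∈ D, (((B a).card - 1 : ℕ) : ℝ)) *
          (M * q ^ (m + (touch e j (W j) D).card)) := by
      have h3 : ((range m).biUnion fun j => (DD j).biUnion fun D =>
          (Psi D).biUnion fun ψ => O2 j D ψ).card ≤
          ∑ j ∈ range m, ∑ D ∈ DD j, ∑ ψ ∈ Psi D, (O2 j D ψ).card := by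
        refine card_biUnion_le.trans (sum_le_sum fun j _ => ?_)
        refine card_biUnion_le.trans (sum_le_sum fun D _ => ?_)
        exact card_biUnion_le
      have h4 : (((range m).biUnion fun j => (DD j).biUnion fun D =>
          (Psi D).biUnion fun ψ => O2 j D ψ).card : ℝ) ≤
          ∑ j ∈ range m, ∑ D ∈ DD j, ∑ ψ ∈ Psi D, ((O2 j D ψ).card : ℝ) := by
        exact_mod_cast h3
      refine h4.trans (sum_le_sum fun j hj => sum_le_sum fun D hD => ?_)
      have hD' := (mem_filter.1 hD).2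
      have h5 : ∀ ψ ∈ Psi D, ((O2 j D ψ).card : ℝ) ≤
          M * q ^ (m + (touch e j (W j) D).card) := by
        intro ψ hψ
        obtain ⟨hψB, hψD⟩ := (mem_filter.1 hψ).2
        refine hOff2 φ ψ (touch e j (W j) D) ?_ ?_
        · intro l hl
          have h6 : l ∈ range j := (mem_filter.1 hl).1
          exact mem_range.2 ((mem_range.1 h6).trans (mem_range.1 hj))
        · intro l hl heq
          have h6 := hD'.2.2 l hl
          rw [not_disjoint_iff] at h6
          obtain ⟨a, haR, haD⟩ := h6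
          have h7 : ψ a ∈ (R l).image φ := by
            rw [heq]
            exact mem_image_of_mem _ haR
          obtain ⟨b, -, hb⟩ := mem_image.1 h7
          have h8 : b = a := by
            by_contra hne
            exact (disjoint_left.1 (hB b a hne) (hφ b)) (hb ▸ hψB a)
          rw [h8] at hb
          exact ((hψD a).1 haD) hb.symm
      refine (sum_le_sum h5).trans ?_
      rw [sum_const, nsmul_eq_mul]
      refine mul_le_mul_of_nonneg_right ?_ (by positivity)
      exact card_comp B φ hφ D (Psi D) fun ψ hψ => (mem_filter.1 hψ).2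
    -- the total of the competitors is small
    set Tot : ℝ := ∑ j ∈ range m, ∑ D ∈ DD j, (∏ a ∈ D, (((B a).card - 1 : ℕ) : ℝ)) *
          (M * q ^ (m + (touch e j (W j) D).card)) with hTot
    have hTotle : 2 ^ (m + 1) * Tot ≤ M * q ^ m := by
      rcases Nat.eq_zero_or_pos m with hm | hm
      · have h3 : Tot = 0 := by
          rw [hTot]
          refine sum_eq_zero fun j hj => ?_
          rw [hm] at hj
          simp at hj
        rw [h3, mul_zero]
        positivity
      · have hmR : (0 : ℝ) < m := by exact_mod_cast hm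
        have h3 : ((m : ℝ) * 2 ^ Fintype.card V * 2 ^ (m + 1)) * Tot ≤
            ∑ j ∈ range m, ∑ D ∈ DD j, M * q ^ m := by
          rw [hTot, mul_sum]
          refine sum_le_sum fun j hj => ?_
          rw [mul_sum]
          refine sum_le_sum fun D hD => ?_
          have hD' := (mem_filter.1 hD).2
          have h4 := hH1 j (mem_range.1 hj) D hD'.1 hD'.2.1 hD'.2.2
          have h5 : ((m : ℝ) * 2 ^ Fintype.card V * 2 ^ (m + 1)) *
              ((∏ a ∈ D, (((B a).card - 1 : ℕ) : ℝ)) *
                (M * q ^ (m + (touch e j (W j) D).card))) =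
              (((m : ℝ) * 2 ^ Fintype.card V * 2 ^ (m + 1)) *
                ((∏ a ∈ D, (((B a).card - 1 : ℕ) : ℝ)) *
                  q ^ (touch e j (W j) D).card)) * (M * q ^ m) := by
            rw [pow_add]
            ring
          rw [h5]
          calc _ ≤ 1 * (M * q ^ m) := mul_le_mul_of_nonneg_right h4 (by positivity)
            _ = M * q ^ m := one_mul _
        have h4 : ∑ j ∈ range m, ∑ D ∈ DD j, M * q ^ m ≤
            (m : ℝ) * 2 ^ Fintype.card V * (M * q ^ m) := by
          have h5 : ∀ j ∈ range m, ∑ D ∈ DD j, M * q ^ m ≤ 2 ^ Fintype.card V * (M * q ^ m) := by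
            intro j _
            rw [sum_const, nsmul_eq_mul]
            refine mul_le_mul_of_nonneg_right ?_ (by positivity)
            have h6 : (DD j).card ≤ 2 ^ Fintype.card V := by
              calc (DD j).card ≤ (univ : Finset (Finset V)).card := card_le_univ _
                _ = 2 ^ Fintype.card V := by simp
            exact_mod_cast h6
          refine (sum_le_sum h5).trans ?_
          rw [sum_const, nsmul_eq_mul, card_range]
          exact le_of_eq (by ring)
        have h5 : (m : ℝ) * 2 ^ Fintype.card V * (2 ^ (m + 1) * Tot) ≤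
            (m : ℝ) * 2 ^ Fintype.card V * (M * q ^ m) := by
          refine le_trans (le_of_eq ?_) (h3.trans h4)
          ring
        exact le_of_mul_le_mul_left h5 (by positivity)
    have hfin : ((univ.filter fun ρ : Fin m → Fin L → RS r n =>
        ∀ j < m, ∃ U ∈ hits ρ j, U.1 = (R j).image φ).card : ℝ) ≤
        ((univ.filter fun ρ : Fin m → Fin L → RS r n =>
          ∀ j < m, Pres (F ρ) (hits ρ) e R j φ).card : ℝ) + Tot := by
      refine le_trans ?_ (add_le_add_right hb _)
      exact_mod_cast hcard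
    have h6 := (hOff φ hφ).trans hfin
    have h7 : (2 : ℝ) ^ (m + 1) * (M * (q / 2) ^ m) = 2 * (M * q ^ m) := by
      rw [div_pow, pow_succ]
      field_simp
    have h8 : (2 : ℝ) ^ (m + 1) * (M * (q / 2) ^ m) ≤
        2 ^ (m + 1) * (((univ.filter fun ρ : Fin m → Fin L → RS r n =>
          ∀ j < m, Pres (F ρ) (hits ρ) e R j φ).card : ℝ) + Tot) :=
      mul_le_mul_of_nonneg_left h6 (by positivity)
    rw [h7, mul_add] at h8
    linarith
  -- sum over the copies
  have hsum : (∑ ρ : Fin m → Fin L → RS r n, (zcnt B (F ρ) (hits ρ) e R m : ℝ)) =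
      ∑ φ ∈ Fintype.piFinset B, ((univ.filter fun ρ : Fin m → Fin L → RS r n =>
        ∀ j < m, Pres (F ρ) (hits ρ) e R j φ).card : ℝ) := by
    have h3 : ∀ ρ : Fin m → Fin L → RS r n, zcnt B (F ρ) (hits ρ) e R m =
        ((Fintype.piFinset B).filter fun φ => ∀ j < m, Pres (F ρ) (hits ρ) e R j φ).card := by
      intro ρ
      rw [zcnt]
      congr 1
      ext φ
      simp [Fintype.mem_piFinset]
    have h4 : (∑ ρ : Fin m → Fin L → RS r n, zcnt B (F ρ) (hits ρ) e R m) =
        ∑ φ ∈ Fintype.piFinset B, (univ.filter fun ρ : Fin m → Fin L → RS r n =>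
          ∀ j < m, Pres (F ρ) (hits ρ) e R j φ).card := by
      simp_rw [h3, card_filter]
      exact sum_comm
    exact_mod_cast h4
  rw [hsum]
  have hcardB : (∏ a, ((B a).card : ℝ)) = ((Fintype.piFinset B).card : ℝ) := by
    rw [Fintype.card_piFinset]
    push_cast
    rfl
  rw [hcardB]
  have h9 : ((Fintype.piFinset B).card : ℝ) * (M * q ^ m) ≤
      2 ^ (m + 1) * ∑ φ ∈ Fintype.piFinset B, ((univ.filter fun ρ : Fin m → Fin L → RS r n =>
        ∀ j < m, Pres (F ρ) (hits ρ) e R j φ).card : ℝ) := by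
    rw [mul_sum, ← nsmul_eq_mul, ← sum_const]
    refine sum_le_sum fun φ hφ => ?_
    exact hone φ fun a => (Fintype.mem_piFinset.1 hφ) a
  rw [← mul_div_assoc, le_div_iff₀ hM0]
  calc _ = ((Fintype.piFinset B).card : ℝ) * (M * q ^ m) := by ring
    _ ≤ _ := h9

end Pool.Agent.Lib.MP_426b05_co.H29
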