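import Pool.Agent.Lib.MP_426b05_co.H29.S3

/-!
# MP_426b05_co, module S4 (helper29): the second moment of the number of complete copies
-/

set_option autoImplicit false

namespace Pool.Agent.Lib.MP_426b05_co.H29

open Finset Filter

/-- S4 -/
theorem s4 (h2a : S2aStatement) : S4Statement := by
  classical
  intro V _ _ r n m L B e R F hB hR hN
  set N : ℕ := Fintype.card (RS r n) with hNdef
  have hNR : (0 : ℝ) < N := by exact_mod_cast hN
  set q : ℝ := (L : ℝ) / N with hq
  have hq0 : 0 ≤ q := by positivity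
  set M : ℝ := (N : ℝ) ^ (L * m) with hM
  have hM0 : 0 < M := by positivity
  -- images of the same set under two maps in the classes
  have himg : ∀ (φ ψ : V → Fin n), (∀ a, φ a ∈ B a) → (∀ a, ψ a ∈ B a) → ∀ T : Finset V,
      T.image φ = T.image ψ → ∀ a ∈ T, φ a = ψ a := by
    intro φ ψ hφ hψ T hT a ha
    have h1 : φ a ∈ T.image ψ := by
      rw [← hT]
      exact mem_image_of_mem _ ha
    obtain ⟨b, -, hb⟩ := mem_image.1 h1
    have h2 : b = a := by
      by_contra hne
      exact (disjoint_left.1 (hB b a hne) (hψ b)) (hb ▸ hφ a)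
    rw [h2] at hb
    exact hb.symm
  let Df : (V → Fin n) → (V → Fin n) → Finset V := fun φ ψ => univ.filter fun a => ψ a ≠ φ a
  -- one pair of copies
  have hone : ∀ (φ ψ : V → Fin n), (∀ a, φ a ∈ B a) → (∀ a, ψ a ∈ B a) →
      ((univ.filter fun ρ : Fin m → Fin L → RS r n =>
        (∀ j < m, Pres (F ρ) (hits ρ) e R j φ) ∧ ∀ j < m, Pres (F ρ) (hits ρ) e R j ψ).card : ℝ) ≤
        M * q ^ (m + (touch e m univ (Df φ ψ)).card) := by
    intro φ ψ hφ hψ
    by_cases hall : ∀ l ∈ touch e m univ (Df φ ψ), (R l).image φ ≠ (R l).image ψ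
    · have hS : touch e m univ (Df φ ψ) ⊆ range m := fun l hl => (mem_filter.1 hl).1
      have h3 := h2a V r n m L R φ ψ (touch e m univ (Df φ ψ)) hS hall
      rw [natcard_sub, ← hNdef] at h3
      have h4 : ((univ.filter fun ρ : Fin m → Fin L → RS r n =>
          (∀ j < m, ∃ U ∈ hits ρ j, U.1 = (R j).image φ) ∧
          ∀ l ∈ touch e m univ (Df φ ψ), ∃ U ∈ hits ρ l, U.1 = (R l).image ψ).card : ℝ) *
            (N : ℝ) ^ (m + (touch e m univ (Df φ ψ)).card) ≤
            M * (L : ℝ) ^ (m + (touch e m univ (Df φ ψ)).card) := by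
        rw [hM]
        exact_mod_cast h3
      have h5 : (univ.filter fun ρ : Fin m → Fin L → RS r n =>
          (∀ j < m, Pres (F ρ) (hits ρ) e R j φ) ∧ ∀ j < m, Pres (F ρ) (hits ρ) e R j ψ) ⊆
          (univ.filter fun ρ : Fin m → Fin L → RS r n =>
          (∀ j < m, ∃ U ∈ hits ρ j, U.1 = (R j).image φ) ∧
          ∀ l ∈ touch e m univ (Df φ ψ), ∃ U ∈ hits ρ l, U.1 = (R l).image ψ) := by
        intro ρ hρ
        obtain ⟨h6, h7⟩ := (mem_filter.1 hρ).2
        refine mem_filter.2 ⟨mem_univ _, fun j hj => ?_, fun l hl => ?_⟩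
        · obtain ⟨U, hU, hU1, -⟩ := h6 j hj
          exact ⟨U, hU, hU1⟩
        · obtain ⟨U, hU, hU1, -⟩ := h7 l (mem_range.1 (hS hl))
          exact ⟨U, hU, hU1⟩
      have h6 : ((univ.filter fun ρ : Fin m → Fin L → RS r n =>
          (∀ j < m, Pres (F ρ) (hits ρ) e R j φ) ∧
            ∀ j < m, Pres (F ρ) (hits ρ) e R j ψ).card : ℝ) ≤
          ((univ.filter fun ρ : Fin m → Fin L → RS r n =>
          (∀ j < m, ∃ U ∈ hits ρ j, U.1 = (R j).image φ) ∧
          ∀ l ∈ touch e m univ (Df φ ψ), ∃ U ∈ hits ρ l, U.1 = (R l).image ψ).card : ℝ) := by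
        exact_mod_cast card_le_card h5
      refine h6.trans ?_
      rw [hq, div_pow, ← mul_div_assoc, le_div_iff₀ (by positivity)]
      exact h4
    · push Not at hall
      obtain ⟨l, hl, heq⟩ := hall
      have h3 : (univ.filter fun ρ : Fin m → Fin L → RS r n =>
          (∀ j < m, Pres (F ρ) (hits ρ) e R j φ) ∧ ∀ j < m, Pres (F ρ) (hits ρ) e R j ψ) = ∅ := by
        rw [filter_eq_empty_iff]
        rintro ρ - ⟨h6, h7⟩
        have hlm : l < m := mem_range.1 (mem_filter.1 hl).1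
        have hle := (mem_filter.1 hl).2.2
        obtain ⟨U, hU, hU1, hU2⟩ := h6 l hlm
        obtain ⟨U', hU', hU1', hU2'⟩ := h7 l hlm
        have h8 : U = U' := Subtype.ext (by rw [hU1, hU1', heq])
        rw [← h8, hU2] at hU2'
        have h9 := himg φ ψ hφ hψ _ heq
        have h10 := himg φ ψ hφ hψ _ hU2'
        rw [not_disjoint_iff] at hle
        obtain ⟨a, ha, haD⟩ := hle
        have h11 : ψ a ≠ φ a := (mem_filter.1 haD).2
        by_cases haR : a ∈ R l
        · exact h11 (h9 a haR).symm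
        · exact h11 (h10 a (mem_sdiff.2 ⟨ha, haR⟩)).symm
      rw [h3, card_empty, Nat.cast_zero]
      positivity
  -- the sum of the squares
  have hz : ∀ ρ : Fin m → Fin L → RS r n, zcnt B (F ρ) (hits ρ) e R m =
      ((Fintype.piFinset B).filter fun φ => ∀ j < m, Pres (F ρ) (hits ρ) e R j φ).card := by
    intro ρ
    rw [zcnt]
    congr 1
    ext φ
    simp [Fintype.mem_piFinset]
  have hsum : (∑ ρ : Fin m → Fin L → RS r n, (zcnt B (F ρ) (hits ρ) e R m : ℝ) ^ 2) =
      ∑ φ ∈ Fintype.piFinset B, ∑ ψ ∈ Fintype.piFinset B,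
        ((univ.filter fun ρ : Fin m → Fin L → RS r n =>
          (∀ j < m, Pres (F ρ) (hits ρ) e R j φ) ∧
            ∀ j < m, Pres (F ρ) (hits ρ) e R j ψ).card : ℝ) := by
    have h4 : ∀ ρ : Fin m → Fin L → RS r n, (zcnt B (F ρ) (hits ρ) e R m) ^ 2 =
        ∑ φ ∈ Fintype.piFinset B, ∑ ψ ∈ Fintype.piFinset B,
          if (∀ j < m, Pres (F ρ) (hits ρ) e R j φ) ∧ ∀ j < m, Pres (F ρ) (hits ρ) e R j ψ
            then 1 else 0 := by
      intro ρ
      rw [hz ρ, sq, card_filter, sum_mul_sum]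
      refine sum_congr rfl fun φ _ => sum_congr rfl fun ψ _ => ?_
      by_cases h5 : ∀ j < m, Pres (F ρ) (hits ρ) e R j φ
      · by_cases h6 : ∀ j < m, Pres (F ρ) (hits ρ) e R j ψ
        · rw [if_pos h5, if_pos h6, mul_one]
          exact (if_pos ⟨h5, h6⟩).symm
        · rw [if_neg h6, mul_zero]
          exact (if_neg fun h => h6 (And.right h)).symm
      · rw [if_neg h5, zero_mul]
        exact (if_neg fun h => h5 (And.left h)).symm
    have h5 : (∑ ρ : Fin m → Fin L → RS r n, (zcnt B (F ρ) (hits ρ) e R m) ^ 2) =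
        ∑ φ ∈ Fintype.piFinset B, ∑ ψ ∈ Fintype.piFinset B,
          (univ.filter fun ρ : Fin m → Fin L → RS r n =>
            (∀ j < m, Pres (F ρ) (hits ρ) e R j φ) ∧
              ∀ j < m, Pres (F ρ) (hits ρ) e R j ψ).card := by
      simp_rw [h4]
      rw [sum_comm]
      refine sum_congr rfl fun φ _ => ?_
      rw [sum_comm]
      refine sum_congr rfl fun ψ _ => ?_
      rw [card_filter]
    exact_mod_cast h5
  rw [hsum, div_le_iff₀ hM0]
  -- sort by the difference set
  have hφ : ∀ φ ∈ Fintype.piFinset B, (∑ ψ ∈ Fintype.piFinset B,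
        ((univ.filter fun ρ : Fin m → Fin L → RS r n =>
          (∀ j < m, Pres (F ρ) (hits ρ) e R j φ) ∧
            ∀ j < m, Pres (F ρ) (hits ρ) e R j ψ).card : ℝ)) ≤
      ∑ D : Finset V, (∏ a ∈ D, ((B a).card : ℝ)) * (M * q ^ (m + (touch e m univ D).card)) := by
    intro φ hφ
    have hφ' : ∀ a, φ a ∈ B a := fun a => (Fintype.mem_piFinset.1 hφ) a
    rw [← sum_fiberwise_of_maps_to (s := Fintype.piFinset B) (t := (univ : Finset (Finset V)))
      (g := fun ψ => Df φ ψ) fun ψ _ => mem_univ _]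
    refine sum_le_sum fun D _ => ?_
    have h3 : ∀ ψ ∈ (Fintype.piFinset B).filter (fun ψ => Df φ ψ = D),
        ((univ.filter fun ρ : Fin m → Fin L → RS r n =>
          (∀ j < m, Pres (F ρ) (hits ρ) e R j φ) ∧
            ∀ j < m, Pres (F ρ) (hits ρ) e R j ψ).card : ℝ) ≤
          M * q ^ (m + (touch e m univ D).card) := by
      intro ψ hψ
      obtain ⟨h4, h5⟩ := mem_filter.1 hψ
      have h6 := hone φ ψ hφ' fun a => (Fintype.mem_piFinset.1 h4) a
      rw [h5] at h6
      exact h6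
    refine (sum_le_sum h3).trans ?_
    rw [sum_const, nsmul_eq_mul]
    refine mul_le_mul_of_nonneg_right ?_ (by positivity)
    refine (card_comp B φ hφ' D _ fun ψ hψ => ?_).trans ?_
    · obtain ⟨h4, h5⟩ := mem_filter.1 hψ
      refine ⟨fun a => (Fintype.mem_piFinset.1 h4) a, fun a => ?_⟩
      rw [← h5]
      simp [Df]
    · refine prod_le_prod (fun a _ => Nat.cast_nonneg _) fun a _ => ?_
      exact_mod_cast Nat.sub_le _ _
  refine (sum_le_sum hφ).trans ?_
  rw [sum_const, nsmul_eq_mul, Fintype.card_piFinset, mul_sum, sum_mul]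
  refine sum_le_sum fun D _ => ?_
  push_cast
  exact le_of_eq (by ring)

end Pool.Agent.Lib.MP_426b05_co.H29
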