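import Pool.Agent.Lib.MP_426b05_co.H29.S3

/-!
# MP_426b05_co, module S5 (helper29): Paley-Zygmund
-/

set_option autoImplicit false

namespace Pool.Agent.Lib.MP_426b05_co.H29

open Finset Filter

/-- S5 -/
theorem s5 (h3 : S3Statement) (h4 : S4Statement) : S5Statement := by
  classical
  intro V _ _ r n m L K B e R W F hK hL1 hBne hB hR hCh hN hL hH1 hH2
  have hE := h3 V r n m L B e R W F hB hR hCh hN hL hH1
  have hE2 := h4 V r n m L B e R F hB (fun j hj => ⟨(hR j hj).1, (hR j hj).2.2⟩) hN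
  set N : ℕ := Fintype.card (RS r n) with hNdef
  have hNR : (0 : ℝ) < N := by exact_mod_cast hN
  have hLR : (0 : ℝ) < L := by exact_mod_cast hL1
  set q : ℝ := (L : ℝ) / N with hq
  have hq0 : 0 < q := by positivity
  set M : ℝ := (N : ℝ) ^ (L * m) with hM
  have hM0 : 0 < M := by positivity
  set b : ℝ := ∏ a, ((B a).card : ℝ) with hb
  have hBpos : ∀ a, (0 : ℝ) < (B a).card := fun a => by exact_mod_cast (hBne a).card_pos
  have hb0 : 0 < b := prod_pos fun a _ => hBpos a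
  set s1 : ℝ := ∑ ρ : Fin m → Fin L → RS r n, (zcnt B (F ρ) (hits ρ) e R m : ℝ) with hs1
  set s2 : ℝ := ∑ ρ : Fin m → Fin L → RS r n, (zcnt B (F ρ) (hits ρ) e R m : ℝ) ^ 2 with hs2
  -- the second moment
  have hterm : ∀ D : Finset V, b * (∏ a ∈ D, ((B a).card : ℝ)) *
      q ^ (m + (touch e m univ D).card) ≤ K * (b ^ 2 * q ^ (2 * m)) := by
    intro D
    have h5 := hH2 Dᶜ
    have h6 : (touch e m univ D).card + (idx e m Dᶜ).card = m := by
      have h7 : touch e m univ D = (range m).filter fun j => ¬ e j ⊆ Dᶜ := by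
        ext j
        rw [touch, mem_filter, mem_filter]
        refine and_congr_right fun _ => ?_
        rw [subset_compl_iff_disjoint_right]
        simp
      rw [h7, idx, add_comm, card_filter_add_card_filter_not, card_range]
    have h7 : b = (∏ a ∈ D, ((B a).card : ℝ)) * ∏ a ∈ Dᶜ, ((B a).card : ℝ) := by
      rw [hb]
      exact (prod_mul_prod_compl D fun a => ((B a).card : ℝ)).symm
    have h8 : b * (∏ a ∈ D, ((B a).card : ℝ)) * q ^ (m + (touch e m univ D).card) *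
        ((∏ a ∈ Dᶜ, ((B a).card : ℝ)) * q ^ (idx e m Dᶜ).card) = b ^ 2 * q ^ (2 * m) := by
      have h9 : q ^ (2 * m) = q ^ (m + (touch e m univ D).card) * q ^ (idx e m Dᶜ).card := by
        rw [← pow_add]
        congr 1
        omega
      rw [h9, sq]
      nth_rewrite 3 [h7]
      ring
    rw [← h8]
    have h9 : 0 ≤ b * (∏ a ∈ D, ((B a).card : ℝ)) * q ^ (m + (touch e m univ D).card) := by
      have := prod_nonneg (s := D) (f := fun a => ((B a).card : ℝ)) fun a _ => (hBpos a).le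
      positivity
    calc b * (∏ a ∈ D, ((B a).card : ℝ)) * q ^ (m + (touch e m univ D).card)
        = b * (∏ a ∈ D, ((B a).card : ℝ)) * q ^ (m + (touch e m univ D).card) * 1 :=
          (mul_one _).symm
      _ ≤ b * (∏ a ∈ D, ((B a).card : ℝ)) * q ^ (m + (touch e m univ D).card) *
          (K * ((∏ a ∈ Dᶜ, ((B a).card : ℝ)) * q ^ (idx e m Dᶜ).card)) :=
          mul_le_mul_of_nonneg_left h5 h9
      _ = K * (b * (∏ a ∈ D, ((B a).card : ℝ)) * q ^ (m + (touch e m univ D).card) *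
          ((∏ a ∈ Dᶜ, ((B a).card : ℝ)) * q ^ (idx e m Dᶜ).card)) := by ring
  have hE2' : s2 ≤ M * (2 ^ Fintype.card V * (K * (b ^ 2 * q ^ (2 * m)))) := by
    have h5 : (∑ D : Finset V, b * (∏ a ∈ D, ((B a).card : ℝ)) *
        q ^ (m + (touch e m univ D).card)) ≤ 2 ^ Fintype.card V * (K * (b ^ 2 * q ^ (2 * m))) := by
      refine (sum_le_sum fun D _ => hterm D).trans ?_
      rw [sum_const, nsmul_eq_mul]
      simp
    have h6 := hE2.trans h5
    rw [div_le_iff₀ hM0] at h6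
    linarith
  -- the first moment
  have hE1' : M * (b * q ^ m) ≤ 2 ^ (m + 1) * s1 := by
    have h5 : 2 ^ (m + 1) * (s1 / M) = 2 ^ (m + 1) * s1 / M := by ring
    rw [h5, le_div_iff₀ hM0] at hE
    linarith
  -- Cauchy-Schwarz
  rw [natcard_sub]
  set G : Finset (Fin m → Fin L → RS r n) :=
    univ.filter fun ρ => 0 < zcnt B (F ρ) (hits ρ) e R m with hG
  have hCS : s1 ^ 2 ≤ (G.card : ℝ) * s2 := by
    have h5 : s1 = ∑ ρ ∈ G, (zcnt B (F ρ) (hits ρ) e R m : ℝ) := by
      rw [hs1, hG, sum_filter]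
      refine sum_congr rfl fun ρ _ => ?_
      by_cases h6 : 0 < zcnt B (F ρ) (hits ρ) e R m
      · rw [if_pos h6]
      · rw [if_neg h6]
        have h7 : zcnt B (F ρ) (hits ρ) e R m = 0 := by omega
        rw [h7, Nat.cast_zero]
    have h6 : (∑ ρ ∈ G, (zcnt B (F ρ) (hits ρ) e R m : ℝ) ^ 2) ≤ s2 := by
      rw [hs2]
      exact sum_le_sum_of_subset_of_nonneg (subset_univ _) fun ρ _ _ => sq_nonneg _
    rw [h5]
    refine (sq_sum_le_card_mul_sum_sq).trans ?_
    exact mul_le_mul_of_nonneg_left h6 (Nat.cast_nonneg _)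
  rw [div_le_iff₀ (by positivity)]
  have h5 : (M * (b * q ^ m)) ^ 2 ≤ 4 ^ (m + 1) * s1 ^ 2 := by
    have h6 : (M * (b * q ^ m)) ^ 2 ≤ (2 ^ (m + 1) * s1) ^ 2 :=
      pow_le_pow_left₀ (by positivity) hE1' 2
    refine h6.trans (le_of_eq ?_)
    rw [mul_pow, ← pow_mul, mul_comm (m + 1) 2, pow_mul]
    norm_num
  have h6 : (M * (b * q ^ m)) ^ 2 ≤
      4 ^ (m + 1) * ((G.card : ℝ) * (M * (2 ^ Fintype.card V * (K * (b ^ 2 * q ^ (2 * m)))))) := by
    refine h5.trans (mul_le_mul_of_nonneg_left (hCS.trans ?_) (by positivity))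
    exact mul_le_mul_of_nonneg_left hE2' (Nat.cast_nonneg _)
  have h7 : M * (M * (b ^ 2 * q ^ (2 * m))) ≤
      ((G.card : ℝ) * (4 ^ (m + 1) * 2 ^ Fintype.card V * K)) * (M * (b ^ 2 * q ^ (2 * m))) := by
    refine le_trans (le_of_eq ?_) (h6.trans (le_of_eq ?_))
    · rw [mul_comm 2 m, pow_mul]
      ring
    · ring
  exact le_of_mul_le_mul_right h7 (by positivity)

end Pool.Agent.Lib.MP_426b05_co.H29
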